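import Pool.Agent.J4H67.HM.D

/-!
Self-avoiding polygons on the square lattice: the high moments of the width are given by the
correlation length of the self-avoiding walk.
-/

set_option autoImplicit false

namespace Pool.Agent.Results.MP_c23e5f_co.HighMoments

open Filter Topology

/-- a closed nearest-neighbour loop on `ℤ²` with `m` steps, rooted at the origin and oriented,
that visits no vertex twice -/
def IsLoop (m : ℕ) (f : ZMod m → ℤ × ℤ) : Prop :=
  f 0 = 0 ∧ Function.Injective f ∧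
    ∀ i : ZMod m, |(f (i + 1)).1 - (f i).1| + |(f (i + 1)).2 - (f i).2| = 1

/-- the width (horizontal extent) of a loop -/
noncomputable def width (m : ℕ) (f : ZMod m → ℤ × ℤ) : ℕ :=
  sSup {w : ℕ | ∃ i j, w = ((f i).1 - (f j).1).natAbs}

/-- the moment of order `p` of the width of the self-avoiding polygons of perimeter `2 n`: the
average of the `p`-th power of the width over the rooted oriented polygons; `p = 1` gives the mean
width `W_n` -/
noncomputable def W (p : ℝ) (n : ℕ) : ℝ :=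
  (∑ᶠ f ∈ {f : ZMod (2 * n) → ℤ × ℤ | IsLoop (2 * n) f}, (width (2 * n) f : ℝ) ^ p) /
    ({f : ZMod (2 * n) → ℤ × ℤ | IsLoop (2 * n) f}.ncard : ℝ)

/-- the logarithm of the `L^p` norm of the width -/
noncomputable def logNorm (p : ℝ) (n : ℕ) : ℝ := Real.log (W p n) / p

/-- the moments of order `p n` have the exponent `τ`: `(W (p n) n)^(1/p n) = n^(τ + o(1))` -/
def HasExponent (p : ℕ → ℝ) (τ : ℝ) : Prop :=
  Tendsto (fun n : ℕ => logNorm (p n) n / Real.log n) atTop (𝓝 τ)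

/-- orders larger than `log n` with `p n = n^(a + o(1))` -/
def Orders (p : ℕ → ℝ) (a : ℝ) : Prop :=
  Tendsto (fun n : ℕ => p n / Real.log n) atTop atTop ∧
    Tendsto (fun n : ℕ => Real.log (p n) / Real.log n) atTop (𝓝 a)

/-- `ω` is an `n`-step self-avoiding walk on `ℤ²` started at the origin. -/
def IsSAW (n : ℕ) (ω : Fin (n + 1) → ℤ × ℤ) : Prop :=
  ω 0 = (0, 0) ∧
  (∀ i : Fin n, |(ω i.succ).1 - (ω i.castSucc).1| + |(ω i.succ).2 - (ω i.castSucc).2| = 1) ∧
  Function.Injective ω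

/-- `c_n`: the number of `n`-step self-avoiding walks from the origin -/
noncomputable def c (n : ℕ) : ℕ := Nat.card {ω : Fin (n + 1) → ℤ × ℤ // IsSAW n ω}

/-- `c_n(x)`: the number of `n`-step self-avoiding walks from the origin to `x` -/
noncomputable def cx (n : ℕ) (x : ℤ × ℤ) : ℕ :=
  Nat.card {ω : Fin (n + 1) → ℤ × ℤ // IsSAW n ω ∧ ω (Fin.last n) = x}

/-- the two-point function `G_z(x) = ∑_n c_n(x) z^n` -/
noncomputable def G (z : ℝ) (x : ℤ × ℤ) : ℝ := ∑' n : ℕ, (cx n x : ℝ) * z ^ n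

theorem c_eq (n : ℕ) : c n = TH795.EP.c n := TH795.EP2.card_walks n

theorem cx_eq (n : ℕ) (x : ℤ × ℤ) : cx n x = TH795.EP.a n x.1 x.2 := TH795.EP2.card_walks_to n x

theorem G_eq (z : ℝ) (k : ℕ) : G z ((k : ℤ), 0) = Y981.L2.Gz z k 0 := by
  unfold G Y981.L2.Gz
  apply tsum_congr
  intro n
  rw [cx_eq]

/-- **Theorem.** Let `‖w‖_{p,n} = W(p,n)^(1/p)` be the `L^p` norm of the width of the uniform
self-avoiding polygon of perimeter `2 n` on `ℤ²`, `μ = lim c_n^(1/n)`, and
`ξ(z) = (lim_k - (1/k) log G_z((k, 0)))^(-1)` the correlation length of the self-avoiding walk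
(it exists and is positive and finite for `0 < z < 1/μ`).
(1) `|log ‖w‖_{p,n} - log (p ξ(e^(-p/n) / μ))| ≤ C (1 + (log n)² / p)` for all integers `n ≥ 2` and
all real `p > 0`; so for `p ≥ (log n)²` the two are equal up to a constant factor.
(2) Up to constant factors, `‖w‖_{q,m} = (m/n) ‖w‖_{p,n}` if `n, m ≥ 2`, `p ≥ (log n)²`,
`q ≥ (log m)²`, `p m = q n`; and `‖w‖_{p,n} ≤ ‖w‖_{p,m} ≤ (m/n) ‖w‖_{p,n}` if `2 ≤ n ≤ m` and
`p ≥ (log m)²`.
(3) For a real `θ` the following are equivalent: for one sequence `p = p(n)` and one `a < 1` with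
`p / log n → ∞`, `log p / log n → a`, the moments of order `p(n)` have the exponent `a + (1 - a) θ`;
they have it for all such `p` and `a`; `ξ(e^(-e) / μ) = e^(-θ + o(1))` as `e → 0+`. Then
`W_n ≤ n^(θ + o(1))`. -/
theorem result : ∃ (μ : ℝ) (ξ : ℝ → ℝ), 0 < μ ∧
    Tendsto (fun n : ℕ => (c n : ℝ) ^ (1 / (n : ℝ))) atTop (𝓝 μ) ∧
    (∀ z : ℝ, 0 < z → z < 1 / μ → 0 < ξ z ∧
      Tendsto (fun k : ℕ => - Real.log (G z ((k : ℤ), 0)) / k) atTop (𝓝 (1 / ξ z))) ∧
    (∃ C : ℝ, ∀ n : ℕ, 2 ≤ n → ∀ p : ℝ, 0 < p → 0 < W p n ∧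
        |logNorm p n - Real.log (p * ξ (Real.exp (-(p / n)) / μ))| ≤
          C * (1 + Real.log n ^ 2 / p)) ∧
    (∃ C : ℝ, (∀ n m : ℕ, 2 ≤ n → 2 ≤ m → ∀ p q : ℝ, Real.log n ^ 2 ≤ p → Real.log m ^ 2 ≤ q →
        p * m = q * n → |(logNorm q m - Real.log m) - (logNorm p n - Real.log n)| ≤ C) ∧
      ∀ n m : ℕ, 2 ≤ n → n ≤ m → ∀ p : ℝ, Real.log m ^ 2 ≤ p →
        logNorm p n - C ≤ logNorm p m ∧
        logNorm p m ≤ logNorm p n + (Real.log m - Real.log n) + C) ∧
    (∀ θ : ℝ, List.TFAE [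
        ∃ (p : ℕ → ℝ) (a : ℝ), a < 1 ∧ Orders p a ∧ HasExponent p (a + (1 - a) * θ),
        ∀ (p : ℕ → ℝ) (a : ℝ), a < 1 → Orders p a → HasExponent p (a + (1 - a) * θ),
        Tendsto (fun e : ℝ => Real.log (ξ (Real.exp (-e) / μ)) / Real.log e) (𝓝[>] 0) (𝓝 (-θ))] ∧
      (Tendsto (fun e : ℝ => Real.log (ξ (Real.exp (-e) / μ)) / Real.log e) (𝓝[>] 0) (𝓝 (-θ)) →
        ∀ ε : ℝ, 0 < ε → ∀ᶠ n : ℕ in atTop, W 1 n ≤ (n : ℝ) ^ (θ + ε))) := by
  have hW : ∀ p n, W p n = Pool.Agent.J4H67.HM.WW p n := fun p n => rfl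
  have hmu := H981.mu_pos
  obtain ⟨ξ, hξ⟩ : ∃ ξ : ℝ → ℝ, ∀ z, ξ z = 1 / Y981.L2.mass (-Real.log (z * H981.mu)) :=
    ⟨_, fun _ => rfl⟩
  have hξe : ∀ e : ℝ, ξ (Real.exp (-e) / H981.mu) = 1 / Y981.L2.mass e := by
    intro e
    rw [hξ, div_mul_cancel₀ _ hmu.ne', Real.log_exp, neg_neg]
  obtain ⟨C, hC⟩ := Pool.Agent.J4H67.HM.scaling
  obtain ⟨C', hC'⟩ := Pool.Agent.J4H67.HM.norm_mass2
  have hA : ∀ n : ℕ, 2 ≤ n → ∀ p : ℝ, Real.log n ^ 2 ≤ p →
      |logNorm p n - Real.log n - Pool.Agent.J4H67.HM.ph (n / p)| ≤ C :=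
    fun n hn p hp => (hC n hn p hp).2
  have hpos : ∀ n : ℕ, 2 ≤ n → ∀ p : ℝ, Real.log n ^ 2 ≤ p → 0 < p := by
    intro n hn p hp
    have hl : 0 < Real.log n := Real.log_pos (by exact_mod_cast (by omega : 1 < n))
    exact lt_of_lt_of_le (by positivity) hp
  have hexp : ∀ (p : ℕ → ℝ) (τ : ℝ), HasExponent p τ ↔ Pool.Agent.J4H67.HM.Exp2 p τ :=
    fun p τ => Iff.rfl
  have hxi : ∀ θ : ℝ, Tendsto (fun e : ℝ => Real.log (ξ (Real.exp (-e) / H981.mu)) / Real.log e)
      (𝓝[>] 0) (𝓝 (-θ)) ↔ Pool.Agent.J4H67.HM.XiExp θ := by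
    intro θ
    unfold Pool.Agent.J4H67.HM.XiExp
    simp only [hξe]
  refine ⟨H981.mu, ξ, hmu, ?_, ?_, ⟨C', ?_⟩, ⟨2 * C, ?_, ?_⟩, ?_⟩
  · have h := H981.tendsto_root
    refine h.congr ?_
    intro n
    rw [c_eq, TH795.EP.c_eq]
  · intro z hz hz1
    have he : 0 < -Real.log (z * H981.mu) := by
      have h1 : z * H981.mu < 1 := by rwa [lt_div_iff₀ hmu] at hz1
      have h2 := Real.log_neg (mul_pos hz hmu) h1
      linarith
    have hm := Y981.L2.mass_pos he
    constructor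
    · rw [hξ]
      positivity
    · have h := Y981.L2.G_tendsto hz hz1
      rw [hξ, one_div_one_div]
      refine h.congr ?_
      intro k
      rw [G_eq]
  · intro n hn p hp
    rw [hξe]
    exact hC' n hn p hp
  · intro n m hn hm p q hp hq hpq
    have h1 := abs_le.1 (hA n hn p hp)
    have h2 := abs_le.1 (hA m hm q hq)
    have hp0 := hpos n hn p hp
    have hq0 := hpos m hm q hq
    have e : (m : ℝ) / q = n / p := by
      rw [div_eq_div_iff hq0.ne' hp0.ne']
      linarith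
    rw [e] at h2
    rw [abs_le]
    constructor <;> linarith [h1.1, h1.2, h2.1, h2.2]
  · intro n m hn hnm p hp
    have hn' : (2 : ℝ) ≤ n := by exact_mod_cast hn
    have hnm' : (n : ℝ) ≤ m := by exact_mod_cast hnm
    have hl : 0 < Real.log n := Real.log_pos (by linarith)
    have hlm : Real.log n ≤ Real.log m := Real.log_le_log (by linarith) hnm'
    have hpn : Real.log n ^ 2 ≤ p := (pow_le_pow_left₀ hl.le hlm 2).trans hp
    have hp0 := hpos n hn p hpn
    have h1 := abs_le.1 (hA n hn p hpn)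
    have h2 := abs_le.1 (hA m (hn.trans hnm) p hp)
    have hs : 0 < (n : ℝ) / p := by positivity
    have hsm : (n : ℝ) / p ≤ m / p := div_le_div_of_nonneg_right hnm' hp0.le
    have h3 := Pool.Agent.J4H67.HM.ph_anti hs.le hsm
    have h4 := Pool.Agent.J4H67.HM.ph_log hs hsm
    rw [Real.log_div (by positivity) hp0.ne', Real.log_div (by linarith) hp0.ne'] at h4
    constructor <;> linarith [h1.1, h1.2, h2.1, h2.2]
  · intro θ
    constructor
    · rw [hxi]
      tfae_have 1 → 3 := by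
        rintro ⟨p, a, ha1, hp, h⟩
        exact Pool.Agent.J4H67.HM.xi_of_exp2 ha1 hp ((hexp _ _).1 h)
      tfae_have 3 → 2 := fun h p a ha1 hp =>
        (hexp _ _).2 (Pool.Agent.J4H67.HM.exp2_of_xi ha1 hp h)
      tfae_have 2 → 1 := by
        intro h
        have hO : Orders (fun n => (n : ℝ) ^ (1 / 2 : ℝ)) (1 / 2) := by
          constructor
          · have h1 := ((isLittleO_log_rpow_atTop (show (0 : ℝ) < 1 / 2 by norm_num)).comp_tendsto
              (tendsto_natCast_atTop_atTop (R := ℝ))).tendsto_div_nhds_zero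
            have h2 : Tendsto (fun n : ℕ => Real.log n / (n : ℝ) ^ (1 / 2 : ℝ)) atTop (𝓝[>] 0) := by
              refine tendsto_nhdsWithin_iff.2 ⟨h1, ?_⟩
              filter_upwards [eventually_ge_atTop 2] with n hn
              have hl : 0 < Real.log n := Real.log_pos (by exact_mod_cast (by omega : 1 < n))
              have hn0 : (0 : ℝ) < n := by exact_mod_cast (by omega : 0 < n)
              exact div_pos hl (Real.rpow_pos_of_pos hn0 _)
            refine (tendsto_inv_nhdsGT_zero.comp h2).congr fun n => ?_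
            simp only [Function.comp, inv_div]
          · refine tendsto_const_nhds.congr' ?_
            filter_upwards [eventually_ge_atTop 2] with n hn
            have hl : 0 < Real.log n := Real.log_pos (by exact_mod_cast (by omega : 1 < n))
            have hn0 : (0 : ℝ) < n := by exact_mod_cast (by omega : 0 < n)
            rw [Real.log_rpow hn0]
            field_simp
        exact ⟨_, _, by norm_num, hO, h _ _ (by norm_num) hO⟩
      tfae_finish
    · rw [hxi]
      intro h ε hε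
      exact Pool.Agent.J4H67.HM.mean_le (a := 1 / 2) (by norm_num) (by norm_num)
        (Pool.Agent.J4H67.HM.exp_of_xi (by norm_num) (by norm_num) h) hε

end Pool.Agent.Results.MP_c23e5f_co.HighMoments
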