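import Pool.Agent.Results.MP_c23e5f_co.AllOrders
import Pool.Agent.J4H96.WP.Gain
import Pool.Agent.J4H67.WI.Mean1

/-!
Self-avoiding polygons on the square lattice: upper bounds for the mean width at some perimeters and
lower bounds at others, or bounds for iterated sums, determine it at all perimeters.
-/

set_option autoImplicit false

namespace Pool.Agent.Results.MP_c23e5f_co.InterlacedWidths

open Filter Topology

/-- a closed nearest-neighbour loop on `ℤ²` with `m` steps, rooted at the origin and oriented,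
that visits no vertex twice -/
def IsLoop (m : ℕ) (f : ZMod m → ℤ × ℤ) : Prop :=
  f 0 = 0 ∧ Function.Injective f ∧
    ∀ i : ZMod m, |(f (i + 1)).1 - (f i).1| + |(f (i + 1)).2 - (f i).2| = 1

/-- the width (horizontal extent) of a loop -/
noncomputable def width (m : ℕ) (f : ZMod m → ℤ × ℤ) : ℕ :=
  sSup {w : ℕ | ∃ i j, w = ((f i).1 - (f j).1).natAbs}

/-- the moment of order `p` of the width of the self-avoiding polygons of perimeter `2 n`: the
average of the `p`-th power of the width over the rooted oriented polygons; `p = 1` gives the mean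
width `W_n` -/
noncomputable def W (p : ℝ) (n : ℕ) : ℝ :=
  (∑ᶠ f ∈ {f : ZMod (2 * n) → ℤ × ℤ | IsLoop (2 * n) f}, (width (2 * n) f : ℝ) ^ p) /
    ({f : ZMod (2 * n) → ℤ × ℤ | IsLoop (2 * n) f}.ncard : ℝ)

/-- the forward difference -/
def step (F : ℕ → ℝ) (n : ℕ) : ℝ := F (n + 1) - F n

/-- the `r`-th difference of `h` is `O((log n / √n)^r)`, for every `r ≥ 1` -/
def Tame (h : ℕ → ℝ) : Prop :=
  ∀ r : ℕ, 1 ≤ r → ∃ K : ℝ, ∀ n : ℕ, 2 ≤ n →
    |step^[r] h n| ≤ K * (Real.log n / Real.sqrt n) ^ r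

/-- `S` meets every window `[n, n + n ^ ρ]`, `n` large. -/
def Meets (S : Set ℕ) (ρ : ℝ) : Prop :=
  ∀ᶠ n : ℕ in atTop, ∃ s ∈ S, n ≤ s ∧ (s : ℝ) ≤ n + (n : ℝ) ^ ρ

/-- `g(n) = O(n ^ (-K))`, with all differences of `g` smaller accordingly: the `j`-th difference is
`O(n ^ (-K - j/2 + δ))` for all `j` and `δ > 0`. -/
def Small (K : ℝ) (g : ℕ → ℝ) : Prop :=
  (∃ C : ℝ, ∀ n : ℕ, 2 ≤ n → |g n| ≤ C * (n : ℝ) ^ (-K)) ∧
  ∀ (j : ℕ) (δ : ℝ), 0 < δ → ∃ C : ℝ, ∀ n : ℕ, 2 ≤ n →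
    |step^[j] g n| ≤ C * (n : ℝ) ^ (-K - j / 2 + δ)

open Pool.Agent.J4H96.WP

theorem step_dif (r : ℕ) (f : ℕ → ℝ) : step^[r] f = dif r f := by
  rw [dif_eq_fwd]
  rfl

theorem step_abs (r : ℕ) (f : ℕ → ℝ) (n : ℕ) : |step^[r] f n| =
    |∑ i ∈ Finset.range (r + 1), (-1 : ℝ) ^ i * (r.choose i : ℝ) * f (n + i)| := by
  rw [step_dif]
  exact dif_eq_sum r f n

theorem abs_dif (r : ℕ) (f : ℕ → ℝ) (n : ℕ) : |dif r f n| = |step^[r] f n| := by
  rw [step_dif]

theorem tame_iff (h : ℕ → ℝ) : Tame h ↔ Regular h := by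
  unfold Tame Regular
  simp only [abs_dif]

theorem tame_W {p : ℝ} (hp : 0 ≤ p) : Tame (fun n => Real.log (W p n)) := by
  intro r hr
  obtain ⟨K, hK⟩ := AllOrders.result p hp r hr
  refine ⟨K, fun n hn => ?_⟩
  rw [step_abs]
  exact hK n hn

theorem smooth {h : ℕ → ℝ} (hh : Tame h) :
    ∀ κ : ℝ, κ < 1 / 2 → Pool.Agent.J4H67.SL.Smooth1 κ h := by
  intro κ hκ
  refine Pool.Agent.J4H67.SL.smooth1_of_half (fun r hr => ?_) hκ
  obtain ⟨C, hC⟩ := hh r hr
  refine ⟨C, fun n hn => ?_⟩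
  have := hC n hn
  rw [step_abs] at this
  exact this

open Pool.Agent.H976R2 Pool.Agent.N929.EZ Pool.Agent.H739K in
theorem W_pos (p : ℝ) {n : ℕ} (hn : 2 ≤ n) : 0 < W p n := by
  have h1 := AllOrders.W_eq p hn
  have e : W p n = AllOrders.W p n := rfl
  rw [e, h1]
  have hc : (0 : ℝ) < ((KP (2 * n - 1)).card : ℝ) :=
    Pool.Agent.N929.EZ.KP_pos (by omega) (by omega)
  refine div_pos (Finset.sum_pos (fun w hw => ?_) (Finset.card_pos.1 (by exact_mod_cast hc))) hc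
  have h2 := Finset.mem_filter.1 hw
  have hl : w.length = 2 * n - 1 := (mem_SW.1 h2.1).1
  have h3 := wid_pos (w := w) (by rw [hl]; exact h2.1) h2.2 (by omega)
  exact Real.rpow_pos_of_pos (by exact_mod_cast (by omega : 0 < mxx w - mnx w)) p

theorem small_of {g : ℕ → ℝ} (hg : Regular g) {K : ℝ} (hK : 0 ≤ K)
    (h : g =O[atTop] fun n : ℕ => (n : ℝ) ^ (-K)) : Small K g := by
  have h1 : ∃ C : ℝ, ∀ n : ℕ, 2 ≤ n → |g n| ≤ C * (n : ℝ) ^ (-K) := by
    obtain ⟨C, hC⟩ := h.bound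
    obtain ⟨N, hN⟩ := eventually_atTop.1 hC
    obtain ⟨B, hB⟩ : ∃ B : ℝ, ∀ n < N, |g n| ≤ B := by
      refine ⟨∑ i ∈ Finset.range N, |g i|, fun n hn => ?_⟩
      exact Finset.single_le_sum (f := fun i => |g i|) (fun i _ => abs_nonneg _)
        (Finset.mem_range.2 hn)
    refine ⟨|C| + |B| * (N : ℝ) ^ K, fun n hn => ?_⟩
    have hn0 : (0 : ℝ) < n := by exact_mod_cast (by omega : 0 < n)
    have hp : 0 < (n : ℝ) ^ (-K) := by positivity
    rcases lt_or_ge n N with hlt | hge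
    · have h2 : 1 ≤ (N : ℝ) ^ K * (n : ℝ) ^ (-K) := by
        rw [Real.rpow_neg hn0.le, ← div_eq_mul_inv, one_le_div (by positivity)]
        exact Real.rpow_le_rpow hn0.le (by exact_mod_cast hlt.le) hK
      calc |g n| ≤ |B| := (hB n hlt).trans (le_abs_self _)
        _ ≤ |B| * ((N : ℝ) ^ K * (n : ℝ) ^ (-K)) := le_mul_of_one_le_right (abs_nonneg _) h2
        _ ≤ (|C| + |B| * (N : ℝ) ^ K) * (n : ℝ) ^ (-K) := by
          rw [add_mul]
          have : 0 ≤ |C| * (n : ℝ) ^ (-K) := by positivity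
          linarith
    · have h2 := hN n hge
      rw [Real.norm_eq_abs, Real.norm_of_nonneg hp.le] at h2
      calc |g n| ≤ C * (n : ℝ) ^ (-K) := h2
        _ ≤ (|C| + |B| * (N : ℝ) ^ K) * (n : ℝ) ^ (-K) := by
          refine mul_le_mul_of_nonneg_right ?_ hp.le
          have h3 : 0 ≤ |B| * (N : ℝ) ^ K := by positivity
          linarith [le_abs_self C]
  refine ⟨h1, fun j δ hδ => ?_⟩
  obtain ⟨C, -, hC⟩ := diff_gain hg hK h1 j hδ
  refine ⟨C, fun n hn => ?_⟩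
  rw [← abs_dif]
  exact hC n hn

theorem ev_of {S : Set ℕ} {P : ℕ → Prop} (h : ∀ s ∈ S, 2 ≤ s → P s) :
    ∀ᶠ n : ℕ in atTop ⊓ 𝓟 S, P n :=
  eventually_inf_principal.2 ((eventually_ge_atTop 2).mono fun n hn hs => h n hs hn)

/-- **Theorem.** Let `p ≥ 0`, and let `W_n` be the mean of the `p`-th power of the width of the
self-avoiding polygons of perimeter `2 n` on `ℤ²` (`p = 1`: the mean width). Let `h` be a tame
sequence (for instance `h(n) = θ log n + a`), and `g(n) = log W_n - h(n)`.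
(1) Let `0 < ε ≤ 1/2`, `K ≥ 0`, and let `S` and `S'` be sets that meet `[n, n + n^(1/2-ε)]` for all
large `n`. If `log W_s ≤ h(s) + O(s^(-K))` on `S` and `log W_s ≥ h(s) - O(s^(-K))` on `S'`, then `g` is
small of order `K`: `g(n) = O(n^(-K))` for all `n ≥ 2`, and its `j`-th difference is
`O(n^(-K-j/2+δ))`, `δ > 0`.
(2) The same for `K > 0` if some weighted mean of `W_m / e^(h(m))` over the `m` in
`[n, n + n^(1/2-ε)]` is `1 + O(n^(-K))`, for all `n ≥ 2`.
(3) Let `D > k/2`, and let `W_n - e^(h(n))` be, for all large `n`, the `k`-th difference of a sequence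
`F(n) = O(e^(h(n)) n^(k-D))`. Then `g` is small of every order `K` with `0 < K < D - k/2`. -/
theorem result : ∀ p : ℝ, 0 ≤ p → ∀ h : ℕ → ℝ, Tame h →
    (∀ (ε K : ℝ) (S S' : Set ℕ), 0 < ε → ε ≤ 1 / 2 → 0 ≤ K →
      Meets S (1 / 2 - ε) → Meets S' (1 / 2 - ε) →
      (∃ C : ℝ, ∀ s ∈ S, 2 ≤ s → Real.log (W p s) ≤ h s + C * (s : ℝ) ^ (-K)) →
      (∃ C : ℝ, ∀ s ∈ S', 2 ≤ s → h s - C * (s : ℝ) ^ (-K) ≤ Real.log (W p s)) →
      Small K (fun n => Real.log (W p n) - h n)) ∧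
    (∀ (ε K : ℝ) (w : ℕ → ℕ → ℝ), 0 < ε → ε ≤ 1 / 2 → 0 < K → (∀ n m, 0 ≤ w n m) →
      (∀ n : ℕ, ∑ m ∈ Finset.Icc n (n + ⌊(n : ℝ) ^ (1 / 2 - ε)⌋₊), w n m = 1) →
      (∃ C : ℝ, ∀ n : ℕ, 2 ≤ n →
        |∑ m ∈ Finset.Icc n (n + ⌊(n : ℝ) ^ (1 / 2 - ε)⌋₊), w n m * (W p m / Real.exp (h m)) - 1| ≤
          C * (n : ℝ) ^ (-K)) →
      Small K (fun n => Real.log (W p n) - h n)) ∧
    (∀ (k : ℕ) (D : ℝ) (F : ℕ → ℝ),
      (∃ C : ℝ, ∀ n : ℕ, 2 ≤ n → |F n| ≤ C * (Real.exp (h n) * (n : ℝ) ^ ((k : ℝ) - D))) →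
      (∀ᶠ n : ℕ in atTop, step^[k] F n = W p n - Real.exp (h n)) →
      ∀ K : ℝ, 0 < K → K < D - k / 2 → Small K (fun n => Real.log (W p n) - h n)) := by
  intro p hp h hh
  have hg : Regular (fun n => Real.log (W p n) - h n) :=
    ((tame_iff _).1 (tame_W hp)).sub ((tame_iff _).1 hh)
  have hpos : ∀ᶠ n : ℕ in atTop, 0 < W p n := (eventually_ge_atTop 2).mono fun n hn => W_pos p hn
  have hL := smooth (tame_W hp)
  have hS := smooth hh
  refine ⟨fun ε K S S' hε hε' hK h1 h2 h3 h4 => small_of hg hK ?_,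
    fun ε K w hε hε' hK hw hw1 h1 => small_of hg hK.le ?_,
    fun k D F hF hf K hK0 hK => small_of hg hK0.le ?_⟩
  · have hκ : 1 / 2 - ε / 2 < 1 / 2 := by linarith
    refine Pool.Agent.J4H67.WI.inter1 (κ := 1 / 2 - ε / 2) (ρ := 1 / 2 - ε) (by linarith)
      (by linarith) (by linarith) ((hL _ hκ).sub (hS _ hκ)) h1 h2 hK ?_ ?_
    · exact h3.imp fun C hC => ev_of fun s hs hs2 => by linarith [hC s hs hs2]
    · exact h4.imp fun C hC => ev_of fun s hs hs2 => by linarith [hC s hs hs2]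
  · obtain ⟨C, h2, h3⟩ := Pool.Agent.J4H67.WI.mean_meets1 (ρ := 1 / 2 - ε) (by linarith) hw hw1
      hK (u := fun n => W p n) (v := fun n => Real.exp (h n)) (fun n => Real.exp_pos _) h1
    exact Pool.Agent.J4H67.WI.inter_exp hpos hL hS hε hε' h2 h3 hK
      ⟨C, eventually_inf_principal.2 (Eventually.of_forall fun m hm => hm)⟩
      ⟨C, eventually_inf_principal.2 (Eventually.of_forall fun m hm => hm)⟩
  · refine Pool.Agent.J4H67.WI.sum_law1 hpos hL hS (k := k) (D := D) (F := F) ?_ ?_ hK0 hK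
    · obtain ⟨C, hC⟩ := hF
      refine Asymptotics.IsBigO.of_bound C ?_
      filter_upwards [eventually_ge_atTop 2] with n hn
      rw [Real.norm_eq_abs, Real.norm_of_nonneg (by positivity)]
      exact hC n hn
    · filter_upwards [hf] with n hn
      have e : Pool.Agent.J4H67.WI.Dq 1 = step := rfl
      rw [e]
      exact hn

end Pool.Agent.Results.MP_c23e5f_co.InterlacedWidths
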