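import Pool.Agent.J4H67.HM.F

/-!
The width of the self-avoiding polygons and the end-to-end distance of the self-avoiding walks on
the square lattice have the same high moments.
-/

set_option autoImplicit false

namespace Pool.Agent.Results.MP_c23e5f_co.PolygonsAndWalks

open Filter Topology

/-- a closed nearest-neighbour loop on `ℤ²` with `m` steps, rooted at the origin and oriented,
that visits no vertex twice -/
def IsLoop (m : ℕ) (f : ZMod m → ℤ × ℤ) : Prop :=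
  f 0 = 0 ∧ Function.Injective f ∧
    ∀ i : ZMod m, |(f (i + 1)).1 - (f i).1| + |(f (i + 1)).2 - (f i).2| = 1

/-- the width (horizontal extent) of a loop -/
noncomputable def width (m : ℕ) (f : ZMod m → ℤ × ℤ) : ℕ :=
  sSup {w : ℕ | ∃ i j, w = ((f i).1 - (f j).1).natAbs}

/-- the moment of order `p` of the width of the self-avoiding polygons of perimeter `2 n`; `p = 1`
gives the mean width `W_n` -/
noncomputable def W (p : ℝ) (n : ℕ) : ℝ :=
  (∑ᶠ f ∈ {f : ZMod (2 * n) → ℤ × ℤ | IsLoop (2 * n) f}, (width (2 * n) f : ℝ) ^ p) /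
    ({f : ZMod (2 * n) → ℤ × ℤ | IsLoop (2 * n) f}.ncard : ℝ)

/-- `ω` is an `n`-step self-avoiding walk on `ℤ²` started at the origin. -/
def IsSAW (n : ℕ) (ω : Fin (n + 1) → ℤ × ℤ) : Prop :=
  ω 0 = (0, 0) ∧
  (∀ i : Fin n, |(ω i.succ).1 - (ω i.castSucc).1| + |(ω i.succ).2 - (ω i.castSucc).2| = 1) ∧
  Function.Injective ω

/-- the Euclidean length of a lattice vector -/
noncomputable def len (x : ℤ × ℤ) : ℝ := Real.sqrt ((x.1 : ℝ) ^ 2 + (x.2 : ℝ) ^ 2)

/-- the moment of order `p` of the end-to-end distance of the `n`-step self-avoiding walks -/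
noncomputable def D (p : ℝ) (n : ℕ) : ℝ :=
  (∑ᶠ ω ∈ {ω : Fin (n + 1) → ℤ × ℤ | IsSAW n ω}, len (ω (Fin.last n)) ^ p) /
    ({ω : Fin (n + 1) → ℤ × ℤ | IsSAW n ω}.ncard : ℝ)

/-- `M (p n) n ^ (1 / p n) = n ^ (τ + o(1))` -/
def HasExponent (M : ℝ → ℕ → ℝ) (p : ℕ → ℝ) (τ : ℝ) : Prop :=
  Tendsto (fun n : ℕ => Real.log (M (p n) n) / p n / Real.log n) atTop (𝓝 τ)

/-- orders larger than `log n` with `p n = n^(a + o(1))` -/
def Orders (p : ℕ → ℝ) (a : ℝ) : Prop :=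
  Tendsto (fun n : ℕ => p n / Real.log n) atTop atTop ∧
    Tendsto (fun n : ℕ => Real.log (p n) / Real.log n) atTop (𝓝 a)

/-- **Theorem.** Let `‖w‖_{p,n} = W(p,n)^(1/p)` be the `L^p` norm of the width of the uniform
self-avoiding polygon of perimeter `2 n` and `‖x‖_{p,n} = D(p,n)^(1/p)` the `L^p` norm of the
end-to-end distance of the uniform self-avoiding walk with `n` steps, on `ℤ²`. There is `C` such
that for all integers `n ≥ 2`:
(1) `|log ‖w‖_{p,n} - log ‖x‖_{p,n}| ≤ C (1 + (log n)² / p)` for all real `p > 0`; so the two norms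
are equal up to a constant factor for `p ≥ (log n)²`;
(2) for all real `p ≥ 1` the mean width `W_n` is at most `exp (C (1 + (log n)² / p)) ‖x‖_{p,n}`, and
the mean end-to-end distance is at most `exp (C (1 + (log n)² / p)) ‖w‖_{p,n}`.
(3) For every sequence `p = p(n)` with `p / log n → ∞` and every real `τ`: `‖w‖_{p,n} = n^(τ+o(1))`
if and only if `‖x‖_{p,n} = n^(τ+o(1))`.
(4) If for one sequence with `p / log n → ∞` and `log p / log n → a < 1` one has
`‖x‖_{p,n} = n^(a + (1-a) θ + o(1))`, then so it is for both norms for all such sequences and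
all such `a`, and `W_n ≤ n^(θ + o(1))`. -/
theorem result :
    (∃ C : ℝ, ∀ n : ℕ, 2 ≤ n →
      (∀ p : ℝ, 0 < p → 0 < W p n ∧ 0 < D p n ∧
        |Real.log (W p n) / p - Real.log (D p n) / p| ≤ C * (1 + Real.log n ^ 2 / p)) ∧
      (∀ p : ℝ, 1 ≤ p →
        W 1 n ≤ Real.exp (C * (1 + Real.log n ^ 2 / p)) * (D p n) ^ (1 / p) ∧
        D 1 n ≤ Real.exp (C * (1 + Real.log n ^ 2 / p)) * (W p n) ^ (1 / p))) ∧
    (∀ p : ℕ → ℝ, Tendsto (fun n : ℕ => p n / Real.log n) atTop atTop → ∀ τ : ℝ,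
      (HasExponent W p τ ↔ HasExponent D p τ)) ∧
    (∀ (p : ℕ → ℝ) (a θ : ℝ), a < 1 → Orders p a → HasExponent D p (a + (1 - a) * θ) →
      (∀ (q : ℕ → ℝ) (b : ℝ), b < 1 → Orders q b →
        HasExponent W q (b + (1 - b) * θ) ∧ HasExponent D q (b + (1 - b) * θ)) ∧
      ∀ ε : ℝ, 0 < ε → ∀ᶠ n : ℕ in atTop, W 1 n ≤ (n : ℝ) ^ (θ + ε)) := by
  have hW : ∀ p n, W p n = Pool.Agent.J4H67.HM.WW p n := fun p n => rfl
  have hD : ∀ p n, D p n = Pool.Agent.J4H67.HM.DD p n := by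
    intro p n
    unfold D Pool.Agent.J4H67.HM.DD
    have h1 := TH795.EP2.finsum_walks n (fun ω => len (ω (Fin.last n)) ^ p)
    have h2 : ∑ᶠ ω ∈ {ω : Fin (n + 1) → ℤ × ℤ | IsSAW n ω}, len (ω (Fin.last n)) ^ p =
        ∑ w ∈ TH795.EP.fs H981.Saw n, Pool.Agent.J4H67.HM.dd w ^ p := by
      refine h1.trans (Finset.sum_congr rfl fun w hw => ?_)
      rw [TH795.EP.mem_fs] at hw
      simp only [TH795.EP2.ew_last n hw.2]
      rfl
    have h3 : ({ω : Fin (n + 1) → ℤ × ℤ | IsSAW n ω}.ncard : ℝ) = TH795.EP.c n := by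
      rw [← TH795.EP2.card_walks n, ← Nat.card_coe_set_eq]
      rfl
    rw [h2, h3]
  have hE : ∀ (p : ℕ → ℝ) (τ : ℝ), HasExponent W p τ ↔ Pool.Agent.J4H67.HM.Exp2 p τ :=
    fun p τ => Iff.rfl
  have hT : ∀ p : ℕ → ℝ, Tendsto (fun n : ℕ => p n / Real.log n) atTop atTop → ∀ τ : ℝ,
      (HasExponent W p τ ↔ HasExponent D p τ) := by
    intro p hp τ
    have h := Pool.Agent.J4H67.HM.exp_iff_exp hp τ
    unfold HasExponent
    simp only [hD]
    exact h
  obtain ⟨C1, h10, h1⟩ := Pool.Agent.J4H67.HM.compare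
  obtain ⟨C2, h20, h2⟩ := Pool.Agent.J4H67.HM.mean_both
  refine ⟨⟨C1 + C2, fun n hn => ⟨fun p hp => ?_, fun p hp => ?_⟩⟩, hT, ?_⟩
  · obtain ⟨a1, a2, a3⟩ := h1 n hn p hp
    have hq : 0 ≤ 1 + Real.log n ^ 2 / p := by positivity
    rw [hW, hD]
    refine ⟨a1, by linarith, a3.trans ?_⟩
    exact mul_le_mul_of_nonneg_right (by linarith) hq
  · obtain ⟨a1, a2⟩ := h2 n hn p hp
    have hp0 : 0 < p := by linarith
    obtain ⟨b1, b2, _⟩ := h1 n hn p hp0
    have hq : 0 ≤ 1 + Real.log n ^ 2 / p := by positivity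
    have hexp : Real.exp (C2 * (1 + Real.log n ^ 2 / p)) ≤
        Real.exp ((C1 + C2) * (1 + Real.log n ^ 2 / p)) :=
      Real.exp_le_exp.2 (mul_le_mul_of_nonneg_right (by linarith) hq)
    rw [hW, hW, hD, hD]
    exact ⟨a1.trans (mul_le_mul_of_nonneg_right hexp (Real.rpow_nonneg (by linarith) _)),
      a2.trans (mul_le_mul_of_nonneg_right hexp (Real.rpow_nonneg b1.le _))⟩
  · intro p a θ ha1 hp h
    have hx : Pool.Agent.J4H67.HM.XiExp θ :=
      Pool.Agent.J4H67.HM.xi_of_exp2 ha1 hp ((hE _ _).1 ((hT p hp.1 _).2 h))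
    refine ⟨fun q b hb1 hq => ?_, fun ε hε => ?_⟩
    · have h3 := (hE _ _).2 (Pool.Agent.J4H67.HM.exp2_of_xi hb1 hq hx)
      exact ⟨h3, (hT q hq.1 _).1 h3⟩
    · exact Pool.Agent.J4H67.HM.mean_le (a := 1 / 2) (by norm_num) (by norm_num)
        (Pool.Agent.J4H67.HM.exp_of_xi (by norm_num) (by norm_num) hx) hε

end Pool.Agent.Results.MP_c23e5f_co.PolygonsAndWalks
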