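import Pool.Agent.Results.MP_c23e5f_co.AllOrders
import Pool.Agent.J4H96.WP.Samp
import Pool.Agent.J4H96.WP.Gain
import Pool.Agent.J4H96.WP.Mono
import Pool.Agent.J4H96.WP.Pow

/-!
Self-avoiding polygons on the square lattice: the mean width at sparse perimeters determines it at
all perimeters, to every order.
-/

set_option autoImplicit false

namespace Pool.Agent.Results.MP_c23e5f_co.SparsePerimeters

/-- a closed nearest-neighbour loop on `ℤ²` with `m` steps, rooted at the origin and oriented,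
that visits no vertex twice -/
def IsLoop (m : ℕ) (f : ZMod m → ℤ × ℤ) : Prop :=
  f 0 = 0 ∧ Function.Injective f ∧
    ∀ i : ZMod m, |(f (i + 1)).1 - (f i).1| + |(f (i + 1)).2 - (f i).2| = 1

/-- the width (horizontal extent) of a loop -/
noncomputable def width (m : ℕ) (f : ZMod m → ℤ × ℤ) : ℕ :=
  sSup {w : ℕ | ∃ i j, w = ((f i).1 - (f j).1).natAbs}

/-- the moment of order `p` of the width of the self-avoiding polygons of perimeter `2 n`: the
average of the `p`-th power of the width over the rooted oriented polygons; `p = 1` gives the mean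
width `W_n` -/
noncomputable def W (p : ℝ) (n : ℕ) : ℝ :=
  (∑ᶠ f ∈ {f : ZMod (2 * n) → ℤ × ℤ | IsLoop (2 * n) f}, (width (2 * n) f : ℝ) ^ p) /
    ({f : ZMod (2 * n) → ℤ × ℤ | IsLoop (2 * n) f}.ncard : ℝ)

/-- the `j`-th difference of a sequence, up to sign -/
noncomputable def diff (j : ℕ) (f : ℕ → ℝ) (n : ℕ) : ℝ :=
  ∑ i ∈ Finset.range (j + 1), (-1 : ℝ) ^ i * (j.choose i : ℝ) * f (n + i)

/-- the `r`-th difference of `h` is `O((log n / √n)^r)`, for every `r ≥ 1` -/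
def Tame (h : ℕ → ℝ) : Prop :=
  ∀ r : ℕ, 1 ≤ r → ∃ K : ℝ, ∀ n : ℕ, 2 ≤ n → |diff r h n| ≤ K * (Real.log n / Real.sqrt n) ^ r

open Pool.Agent.J4H96.WP

theorem abs_dif (r : ℕ) (f : ℕ → ℝ) (n : ℕ) : |dif r f n| = |diff r f n| := dif_eq_sum r f n

theorem tame_iff (h : ℕ → ℝ) : Tame h ↔ Regular h := by
  unfold Tame Regular
  simp only [abs_dif]

theorem tame_W {p : ℝ} (hp : 0 ≤ p) : Tame (fun n => Real.log (W p n)) :=
  fun r hr => AllOrders.result p hp r hr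

theorem regular_sum (m : ℕ) (c b : ℕ → ℝ) (hb : ∀ j < m, 0 ≤ b j) :
    Regular (fun n : ℕ => ∑ j ∈ Finset.range m, c j * (n : ℝ) ^ (-b j)) := by
  induction m with
  | zero => simpa using regular_const 0
  | succ m ih =>
    have h1 := (ih (fun j hj => hb j (by omega))).add
      ((regular_rpow (hb m (by omega))).const_mul (c m))
    simpa [Finset.sum_range_succ] using h1

open Filter Topology in
theorem ratio_lim {u : ℕ → ℝ} {θ a K : ℝ} (hK : 1 / 2 < K)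
    (h : ∃ C : ℝ, ∀ n : ℕ, 2 ≤ n → |diff 1 (fun m => u m - (θ * Real.log m + a)) n| ≤
      C * (n : ℝ) ^ (-K - (1 : ℕ) / 2 + (K - 1 / 2) / 2)) :
    Tendsto (fun n : ℕ => (n : ℝ) * (u (n + 1) - u n)) atTop (𝓝 θ) := by
  obtain ⟨C, hC⟩ := h
  have h1 : Tendsto (fun n : ℕ => (n : ℝ) * Real.log (1 + 1 / (n : ℝ))) atTop (𝓝 1) :=
    (Real.tendsto_mul_log_one_add_div_atTop 1).comp tendsto_natCast_atTop_atTop
  have h2 : Tendsto (fun n : ℕ => C * (n : ℝ) ^ (-((K - 1 / 2) / 2))) atTop (𝓝 0) := by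
    have := ((tendsto_rpow_neg_atTop (show 0 < (K - 1 / 2) / 2 by linarith)).comp
      (tendsto_natCast_atTop_atTop (R := ℝ))).const_mul C
    simpa using this
  have h3 : Tendsto (fun n : ℕ => (n : ℝ) * (u (n + 1) - u n) -
      θ * ((n : ℝ) * Real.log (1 + 1 / (n : ℝ)))) atTop (𝓝 0) := by
    apply squeeze_zero_norm' _ h2
    filter_upwards [eventually_ge_atTop 2] with n hn
    have hn' := two_le_real hn
    have hn0 : (0 : ℝ) < n := by linarith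
    have h4 := hC n hn
    have h5 : Real.log (1 + 1 / (n : ℝ)) = Real.log ((n + 1 : ℕ) : ℝ) - Real.log n := by
      rw [← Real.log_div (by positivity) (by positivity)]
      congr 1
      push_cast
      field_simp
    have h6 : (n : ℝ) * (u (n + 1) - u n) - θ * ((n : ℝ) * Real.log (1 + 1 / (n : ℝ))) =
        -(n * diff 1 (fun m => u m - (θ * Real.log m + a)) n) := by
      rw [h5]
      unfold diff
      rw [Finset.sum_range_succ, Finset.sum_range_succ, Finset.sum_range_zero]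
      norm_num
      ring
    rw [Real.norm_eq_abs, h6, abs_neg, abs_mul, abs_of_pos hn0]
    calc (n : ℝ) * |diff 1 (fun m => u m - (θ * Real.log m + a)) n|
        ≤ n * (C * (n : ℝ) ^ (-K - (1 : ℕ) / 2 + (K - 1 / 2) / 2)) :=
          mul_le_mul_of_nonneg_left h4 hn0.le
      _ = C * ((n : ℝ) ^ (1 : ℝ) * (n : ℝ) ^ (-K - (1 : ℕ) / 2 + (K - 1 / 2) / 2)) := by
          rw [Real.rpow_one]; ring
      _ = C * (n : ℝ) ^ (-((K - 1 / 2) / 2)) := by
          rw [← Real.rpow_add hn0]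
          congr 2
          push_cast
          ring
  have h7 := h3.add (h1.const_mul θ)
  rw [zero_add, mul_one] at h7
  refine h7.congr fun n => ?_
  ring

/-- **Theorem.** Let `p ≥ 0`, and let `W_n` be the mean of the `p`-th power of the width of the
self-avoiding polygons of perimeter `2 n` on `ℤ²` (`p = 1`: the mean width).
Let `ε > 0` and `K ≥ 0`, and let `h` be a tame sequence.
(1) There are `r` and `C` such that for every `n ≥ 2` there is a real polynomial `P` of degree less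
than `r` with `|log W_{n+k} - P(k)| ≤ C n^(-K)` for all integers `0 ≤ k ≤ n^(1/2-ε)`.
(2) If `S` meets `[n, n + n^(1/2-ε)]` for all large `n` and `log W_s = h(s) + O(s^(-K))` on `S`,
then `log W_n = h(n) + O(n^(-K))` for all `n`, and the `j`-th difference of `log W_n - h(n)` is
`O(n^(-K-j/2+δ))` for all `j` and `δ > 0`.
(3) There is `C` such that for every `N ≥ 2` there are at most `C N^(1/2+ε)` integers such that on
each interval of `[N, 2 N]` that none of them cuts, `log W_n - h(n)` is nondecreasing or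
nonincreasing up to an error `C N^(-K)`.
(4) Every sequence `θ log n + a + ∑ c_j n^(-b_j)` (finite sum, `b_j ≥ 0`) is tame.
(5) If `S` is as in (2) and `log W_s = θ log s + a + O(s^(-K))` on `S` with `K > 1/2`, then
`n (log W_{n+1} - log W_n) → θ`. -/
theorem result : ∀ p : ℝ, 0 ≤ p →
    (∀ ε K : ℝ, 0 < ε → 0 ≤ K → ∃ r : ℕ, ∃ C : ℝ, ∀ n : ℕ, 2 ≤ n →
      ∃ P : Polynomial ℝ, P.natDegree < r ∧ ∀ k : ℕ, (k : ℝ) ≤ (n : ℝ) ^ (1 / 2 - ε) →
        |Real.log (W p (n + k)) - P.eval (k : ℝ)| ≤ C * (n : ℝ) ^ (-K)) ∧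
    (∀ h : ℕ → ℝ, Tame h → ∀ ε K : ℝ, 0 < ε → 0 ≤ K → ∀ S : Set ℕ,
      (∃ n0 : ℕ, ∀ n : ℕ, n0 ≤ n → ∃ s ∈ S, n ≤ s ∧ (s : ℝ) ≤ n + (n : ℝ) ^ (1 / 2 - ε)) →
      (∃ C : ℝ, ∀ s ∈ S, 2 ≤ s → |Real.log (W p s) - h s| ≤ C * (s : ℝ) ^ (-K)) →
      (∃ C : ℝ, ∀ n : ℕ, 2 ≤ n → |Real.log (W p n) - h n| ≤ C * (n : ℝ) ^ (-K)) ∧
      ∀ (j : ℕ) (δ : ℝ), 0 < δ → ∃ C : ℝ, ∀ n : ℕ, 2 ≤ n →
        |diff j (fun m => Real.log (W p m) - h m) n| ≤ C * (n : ℝ) ^ (-K - j / 2 + δ)) ∧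
    (∀ h : ℕ → ℝ, Tame h → ∀ ε K : ℝ, 0 < ε → 0 ≤ K → ∃ C : ℝ, ∀ N : ℕ, 2 ≤ N →
      ∃ T : Finset ℕ, (T.card : ℝ) ≤ C * (N : ℝ) ^ (1 / 2 + ε) ∧
        ∀ a b : ℕ, N ≤ a → a ≤ b → b ≤ 2 * N → (∀ t ∈ T, ¬(a < t ∧ t ≤ b)) →
          (∀ i j : ℕ, a ≤ i → i ≤ j → j ≤ b →
            Real.log (W p i) - h i ≤ Real.log (W p j) - h j + C * (N : ℝ) ^ (-K)) ∨
          (∀ i j : ℕ, a ≤ i → i ≤ j → j ≤ b →
            Real.log (W p j) - h j ≤ Real.log (W p i) - h i + C * (N : ℝ) ^ (-K))) ∧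
    (∀ (θ a : ℝ) (m : ℕ) (c b : ℕ → ℝ), (∀ j < m, 0 ≤ b j) →
      Tame (fun n : ℕ => θ * Real.log n + a + ∑ j ∈ Finset.range m, c j * (n : ℝ) ^ (-b j))) ∧
    (∀ θ a ε K : ℝ, 0 < ε → 1 / 2 < K → ∀ S : Set ℕ,
      (∃ n0 : ℕ, ∀ n : ℕ, n0 ≤ n → ∃ s ∈ S, n ≤ s ∧ (s : ℝ) ≤ n + (n : ℝ) ^ (1 / 2 - ε)) →
      (∃ C : ℝ, ∀ s ∈ S, 2 ≤ s →
        |Real.log (W p s) - (θ * Real.log s + a)| ≤ C * (s : ℝ) ^ (-K)) →
      Filter.Tendsto (fun n : ℕ => (n : ℝ) * (Real.log (W p (n + 1)) - Real.log (W p n)))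
        Filter.atTop (nhds θ)) := by
  intro p hp
  have hW : Regular (fun n => Real.log (W p n)) := (tame_iff _).1 (tame_W hp)
  have hdiff : ∀ h : ℕ → ℝ, Tame h → Regular (fun n => Real.log (W p n) - h n) :=
    fun h hh => hW.sub ((tame_iff _).1 hh)
  have hwin : ∀ {ε : ℝ} {n : ℕ}, 2 ≤ n → (n : ℝ) ^ (1 / 2 - ε) ≤ (n : ℝ) ^ (1 / 2 - min ε (1 / 4)) := by
    intro ε n hn
    have hn' := two_le_real hn
    exact Real.rpow_le_rpow_of_exponent_le (by linarith) (by linarith [min_le_left ε (1 / 4)])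
  have key : ∀ h : ℕ → ℝ, Tame h → ∀ ε K : ℝ, 0 < ε → 0 ≤ K → ∀ S : Set ℕ,
      (∃ n0 : ℕ, ∀ n : ℕ, n0 ≤ n → ∃ s ∈ S, n ≤ s ∧ (s : ℝ) ≤ n + (n : ℝ) ^ (1 / 2 - ε)) →
      (∃ C : ℝ, ∀ s ∈ S, 2 ≤ s → |Real.log (W p s) - h s| ≤ C * (s : ℝ) ^ (-K)) →
      (∃ C : ℝ, ∀ n : ℕ, 2 ≤ n → |Real.log (W p n) - h n| ≤ C * (n : ℝ) ^ (-K)) ∧
      ∀ (j : ℕ) (δ : ℝ), 0 < δ → ∃ C : ℝ, ∀ n : ℕ, 2 ≤ n →
        |diff j (fun m => Real.log (W p m) - h m) n| ≤ C * (n : ℝ) ^ (-K - j / 2 + δ) := by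
    intro h hh ε K hε hK S hS hSW
    have hg := hdiff h hh
    obtain ⟨n0, hS⟩ := hS
    have h1 := sampling hg (ε := min ε (1 / 4)) (lt_min hε (by norm_num)) (min_le_right _ _) hK
      (S := S) ⟨max n0 2, fun n hn => by
        obtain ⟨s, hs, hns, hsn⟩ := hS n ((le_max_left _ _).trans hn)
        have hn2 : 2 ≤ n := (le_max_right _ _).trans hn
        exact ⟨s, hs, hns, hsn.trans (by linarith [hwin (ε := ε) hn2])⟩⟩ hSW
    obtain ⟨C, -, hC⟩ := h1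
    refine ⟨⟨C, hC⟩, fun j δ hδ => ?_⟩
    obtain ⟨C', -, hC'⟩ := diff_gain hg hK ⟨C, hC⟩ j hδ
    refine ⟨C', fun n hn => ?_⟩
    rw [← abs_dif]
    exact hC' n hn
  have hlin : ∀ θ a : ℝ, Tame (fun n : ℕ => θ * Real.log n + a) := by
    intro θ a
    rw [tame_iff]
    exact (regular_log.const_mul θ).add (regular_const a)
  refine ⟨?_, key, ?_, ?_, ?_⟩
  · intro ε K hε hK
    obtain ⟨r, hr1, hr⟩ := local_poly hW (ε := min ε (1 / 4)) (lt_min hε (by norm_num))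
      (by linarith [min_le_right ε (1 / 4)]) hK
    obtain ⟨C, -, hC⟩ := hr r le_rfl
    exact ⟨r, C, fun n hn => ⟨newt r (fun n => Real.log (W p n)) n, newt_degree r hr1 _ n,
      fun k hk => hC n hn k (hk.trans (hwin hn))⟩⟩
  · intro h hh ε K hε hK
    obtain ⟨C, hC0, hC⟩ := mono_pieces (hdiff h hh) (ε := min ε (1 / 4)) (lt_min hε (by norm_num))
      (by linarith [min_le_right ε (1 / 4)]) hK
    refine ⟨C, fun N hN => ?_⟩
    obtain ⟨T, hT1, hT2⟩ := hC N hN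
    refine ⟨T, hT1.trans (mul_le_mul_of_nonneg_left ?_ hC0), hT2⟩
    have hN' := two_le_real hN
    exact Real.rpow_le_rpow_of_exponent_le (by linarith) (by linarith [min_le_left ε (1 / 4)])
  · intro θ a m c b hb
    rw [tame_iff]
    exact ((regular_log.const_mul θ).add (regular_const a)).add (regular_sum m c b hb)
  · intro θ a ε K hε hK S hS hSW
    exact ratio_lim hK ((key _ (hlin θ a) ε K hε (by linarith) S hS hSW).2 1 ((K - 1 / 2) / 2)
      (by linarith))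

end Pool.Agent.Results.MP_c23e5f_co.SparsePerimeters
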